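import Pool.Agent.Q33.Cub.Two

/-! Sun's congruence for `a(0) + ⋯ + a(p-1)` modulo `p^2`, `p ≡ 2 (mod 3)`. -/

namespace Pool.Agent.Results.MP_ec79a8_nt.PartialSums

open Finset

/-- `a(n) = ∑_j C(n,j) C(n-j,j) C(n+j,j)` -/
def a (n : ℕ) : ℤ :=
  ∑ j ∈ range (n + 1), (n.choose j : ℤ) * ((n - j).choose j : ℤ) * ((n + j).choose j : ℤ)

open Pool.Agent.Q33.Cub (T sum_a T_mul choose_add_self choose_pred central hh ph f_one_mul eval_f lin_ne hh_eq)

theorem a_lib (n : ℕ) : a n = Pool.Agent.Q33.Cub.a n := rfl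

theorem exists_T' {p : ℕ} [Fact p.Prime] {n : ℕ} (hn : p + 1 = 6 * n) {j : ℕ} (hj : j ≤ hh p) :
    ∃ t : ℤ, T p j = p * t ∧ (t : ZMod p) = ph p j := by
  have hp : p.Prime := Fact.out
  have h1 := T_mul (p := p) (j := j) hp.pos
  have hh' := hh_eq hn
  have hne := lin_ne hn (e := j) (by omega) (by omega)
  have hnd : ¬ (p : ℤ) ∣ (3 * (j : ℤ) + 1) := by
    intro h
    apply hne
    have := (ZMod.intCast_zmod_eq_zero_iff_dvd (3 * (j : ℤ) + 1) p).2 h
    push_cast at this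
    exact this
  have hd : (p : ℤ) ∣ T p j := by
    have h2 : (p : ℤ) ∣ (3 * (j : ℤ) + 1) * T p j := by
      rw [h1]
      exact Dvd.intro _ rfl
    exact ((Nat.prime_iff_prime_int.1 hp).dvd_or_dvd h2).resolve_left hnd
  obtain ⟨t, ht⟩ := hd
  refine ⟨t, ht, ?_⟩
  have hp0 : (p : ℤ) ≠ 0 := by exact_mod_cast hp.ne_zero
  have h3 : (3 * (j : ℤ) + 1) * t
      = ((2 * j).choose j : ℤ) * ((p + j).choose j : ℤ) * ((p - 1).choose (2 * j) : ℤ) := by
    apply mul_left_cancel₀ hp0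
    rw [← h1, ht]
    ring
  have h4 := congrArg (fun z : ℤ => (z : ZMod p)) h3
  push_cast at h4
  rw [choose_add_self (by omega), choose_pred (by omega), central (h := hh p) (by omega) (by omega)] at h4
  rw [pow_mul, neg_one_sq, one_pow, mul_one, mul_one] at h4
  unfold ph
  rw [eq_div_iff hne, ← h4]
  ring

theorem big {p : ℕ} (hp : p.Prime) (h3 : p % 3 = 2) (h2 : p ≠ 2) :
    (p : ℤ) ^ 2 ∣ ((2 * ((p + 1) / 3)).choose ((p + 1) / 3) : ℤ) * ∑ k ∈ range p, a k - 2 * p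
      ∧ ¬ (p : ℤ) ∣ ((2 * ((p + 1) / 3)).choose ((p + 1) / 3) : ℤ) := by
  have : Fact p.Prime := ⟨hp⟩
  have hodd := hp.eq_two_or_odd
  obtain ⟨n, hn⟩ : ∃ n, p + 1 = 6 * n := ⟨(p + 1) / 6, by omega⟩
  have hh' := hh_eq hn
  have hm : (p + 1) / 3 = 2 * n := by omega
  rw [hm]
  have hsum : ∑ k ∈ range p, a k = ∑ j ∈ range (hh p + 1), T p j := by
    rw [← sum_a (p := p) (h := hh p) (by omega)]
    rfl
  have hex : ∀ j : ℕ, ∃ t : ℤ, j ≤ hh p → T p j = p * t ∧ (t : ZMod p) = ph p j := by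
    intro j
    by_cases hj : j ≤ hh p
    · obtain ⟨t, ht⟩ := exists_T' hn hj
      exact ⟨t, fun _ => ht⟩
    · exact ⟨0, fun h => absurd h hj⟩
  choose t ht using hex
  have hs : ∑ j ∈ range (hh p + 1), T p j = p * ∑ j ∈ range (hh p + 1), t j := by
    rw [mul_sum]
    refine sum_congr rfl fun j hj => ?_
    rw [mem_range] at hj
    exact (ht j (by omega)).1
  have hf : ((∑ j ∈ range (hh p + 1), t j : ℤ) : ZMod p) = (Pool.Agent.Q33.Cub.f p).eval 1 := by
    rw [eval_f]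
    push_cast
    refine sum_congr rfl fun j hj => ?_
    rw [mem_range] at hj
    rw [(ht j (by omega)).2, one_pow, mul_one]
  have hmul := f_one_mul hn
  rw [← hf] at hmul
  constructor
  · rw [hsum, hs]
    have h5 : (p : ℤ) ∣ (∑ j ∈ range (hh p + 1), t j) * ((2 * (2 * n)).choose (2 * n) : ℤ) - 2 := by
      rw [← ZMod.intCast_zmod_eq_zero_iff_dvd]
      push_cast at hmul ⊢
      rw [hmul, sub_self]
    obtain ⟨c, hc⟩ := h5
    refine ⟨c, ?_⟩
    linear_combination (p : ℤ) * hc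
  · intro h
    rw [← ZMod.intCast_zmod_eq_zero_iff_dvd] at h
    push_cast at h hmul
    rw [h, mul_zero] at hmul
    exact Pool.Agent.Q33.Cub.two_ne h2 hmul.symm

/-- **MP_ec79a8**, Q1: for every prime `p ≡ 2 (mod 3)` and `m = (p+1)/3`, the rational number
`a(0) + ⋯ + a(p-1) - 2p / C(2m,m)` in lowest terms has numerator divisible by `p^2`. -/
theorem result (p : ℕ) (hp : p.Prime) (h3 : p % 3 = 2) :
    (p : ℤ) ^ 2 ∣ (((∑ k ∈ range p, a k : ℤ) : ℚ)
      - 2 * (p : ℚ) / ((2 * ((p + 1) / 3)).choose ((p + 1) / 3) : ℚ)).num := by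
  by_cases h2 : p = 2
  · subst h2
    have : (((∑ k ∈ range 2, a k : ℤ) : ℚ)
      - 2 * ((2 : ℕ) : ℚ) / ((2 * ((2 + 1) / 3)).choose ((2 + 1) / 3) : ℚ)) = 0 := by
      have h1 : ∑ k ∈ range 2, a k = 2 := by decide
      rw [h1]
      norm_num
    rw [this]
    simp
  · obtain ⟨h4, h5⟩ := big hp h3 h2
    set c := (2 * ((p + 1) / 3)).choose ((p + 1) / 3) with hc
    set s := ∑ k ∈ range p, a k with hs
    have hc0 : (c : ℚ) ≠ 0 := by
      intro h
      apply h5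
      have : c = 0 := by exact_mod_cast h
      rw [this]
      simp
    set q := (s : ℚ) - 2 * (p : ℚ) / (c : ℚ) with hq
    have h6 : q * (c : ℚ) = (((c : ℤ) * s - 2 * p : ℤ) : ℚ) := by
      rw [hq]
      push_cast
      field_simp
    have h7 : q.num * (c : ℤ) = ((c : ℤ) * s - 2 * p) * q.den := by
      have h8 : (q.num : ℚ) = q * q.den := (Rat.mul_den_eq_num q).symm
      have h9 : ((q.num * (c : ℤ) : ℤ) : ℚ) = ((((c : ℤ) * s - 2 * p) * q.den : ℤ) : ℚ) := by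
        rw [Int.cast_mul, Int.cast_mul, ← h6, h8]
        push_cast
        ring
      exact_mod_cast h9
    have h10 : (p : ℤ) ^ 2 ∣ q.num * (c : ℤ) := by
      rw [h7]
      exact h4.mul_right _
    have hcop : IsCoprime ((p : ℤ) ^ 2) (c : ℤ) := by
      apply IsCoprime.pow_left
      exact (Prime.coprime_iff_not_dvd (Nat.prime_iff_prime_int.1 hp)).2 h5
    exact hcop.dvd_of_dvd_mul_right h10

end Pool.Agent.Results.MP_ec79a8_nt.PartialSums
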